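import Pool.Agent.Helper44.GM.GP

/-!
# Module CONE: cones and Gromov products
-/

namespace Pool.Agent.Helper12.GM

theorem st_CONE : ST_CONE := by
  intro Γ _ Q
  have hC : (1 : ℝ) ≤ Q.C := Q.one_le_C
  refine ⟨⟨11 * Q.C, ?_⟩, ?_, ?_⟩
  · intro l hl x z w p u h1 h2 h3 h4 h5
    have a1 : Q.d z w ≤ Q.d z p + Q.d p w := gpx_d_tri Q z p w
    have a2 : 2 * l / 3 - Q.C ≤ Q.gp p w z := by
      unfold Geo.gp; linarith
    have a3 := gpx_four Q p x w z
    have a4 : l / 2 - Q.C / 2 ≤ Q.gp p x z := by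
      refine (sub_le_sub_right (le_min ?_ ?_) _).trans a3
      · linarith
      · linarith
    have a5 := gpx_lip Q u p x z
    have a6 : Q.d z u ≤ Q.d z p + Q.d p u := gpx_d_tri Q z p u
    have a7 : Q.d z p ≤ Q.d z u + Q.d u p := gpx_d_tri Q z u p
    rw [gpx_d_comm Q u p] at a7
    constructor <;> linarith
  · intro x x' z u v C₀ h1 h2 h3
    by_contra h4
    push Not at h4
    have b0 := gpx_nonneg Q x x' z
    have b1 := gpx_le_left Q u v z
    have b2 := gpx_le_right Q u v z
    have b3 := gpx_four Q x x' u z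
    have b4 := gpx_four Q u x' v z
    rw [gpx_comm Q x u z] at b3
    rcases min_le_iff.mp (sub_le_iff_le_add.mp b3) with h5 | h5
    · linarith
    · rcases min_le_iff.mp (sub_le_iff_le_add.mp b4) with h6 | h6
      · linarith
      · linarith
  · intro x y z u C₀ h1 h2 h3
    have b3 := gpx_four Q x y u z
    rw [gpx_comm Q x u z] at b3
    rcases min_le_iff.mp (sub_le_iff_le_add.mp b3) with h5 | h5
    · linarith
    · linarith

end Pool.Agent.Helper12.GM
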