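import Pool.Agent.Helper44.GM.GP

/-!
# Module LOGL: the logarithmic lemma
-/

namespace Pool.Agent.Helper12.GM

theorem st_LOGL : ST_LOGL := by
  intro Γ _ Q p k
  induction k with
  | zero =>
    intro n x h1 h2
    have hn : n = 1 := by
      rw [pow_zero] at h2; omega
    subst hn
    exact ⟨0, Nat.one_pos, by simp⟩
  | succ k ih =>
    intro n x h1 h2
    have hC : (0 : ℝ) ≤ Q.C := zero_le_one.trans Q.one_le_C
    rcases le_or_gt n (2 ^ k) with h3 | h3
    · obtain ⟨i, hi, h⟩ := ih n x h1 h3
      refine ⟨i, hi, h.trans ?_⟩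
      push_cast
      nlinarith
    · have hm : 1 ≤ 2 ^ k := Nat.one_le_two_pow
      have h4 := gpx_four Q (x 0) (x n) (x (2 ^ k)) p
      rcases min_le_iff.mp (sub_le_iff_le_add.mp h4) with h5 | h5
      · obtain ⟨i, hi, h⟩ := ih (2 ^ k) x hm le_rfl
        refine ⟨i, hi.trans h3, h.trans ?_⟩
        push_cast
        linarith
      · have h6 : 1 ≤ n - 2 ^ k := by omega
        have h7 : n - 2 ^ k ≤ 2 ^ k := by
          rw [pow_succ] at h2; omega
        obtain ⟨i, hi, h⟩ := ih (n - 2 ^ k) (fun j => x (2 ^ k + j)) h6 h7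
        have e1 : 2 ^ k + (n - 2 ^ k) = n := by omega
        simp only [add_zero, e1] at h
        refine ⟨2 ^ k + i, by omega, ?_⟩
        rw [add_assoc]
        refine h.trans ?_
        push_cast
        linarith

end Pool.Agent.Helper12.GM
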