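import Pool.Agent.Helper12.GM.Stmts

/-!
# Gromov products for abstract hyperbolic length functions
-/

namespace Pool.Agent.Helper12.GM

variable {Γ : Type} [Group Γ]

theorem gpx_d_comm (Q : Geo Γ) (x y : Γ) : Q.d x y = Q.d y x := by
  unfold Geo.d
  rw [← Q.inv (x⁻¹ * y), mul_inv_rev, inv_inv]

theorem gpx_d_self (Q : Geo Γ) (x : Γ) : Q.d x x = 0 := by
  unfold Geo.d
  rw [inv_mul_cancel, Q.one]

theorem gpx_d_nonneg (Q : Geo Γ) (x y : Γ) : 0 ≤ Q.d x y := Q.nonneg _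

theorem gpx_d_tri (Q : Geo Γ) (x y z : Γ) : Q.d x z ≤ Q.d x y + Q.d y z := by
  unfold Geo.d
  have h := Q.mul (x⁻¹ * y) (y⁻¹ * z)
  have e : x⁻¹ * y * (y⁻¹ * z) = x⁻¹ * z := by group
  rwa [e] at h

theorem gpx_d_left (Q : Geo Γ) (g x y : Γ) : Q.d (g * x) (g * y) = Q.d x y := by
  unfold Geo.d
  have e : (g * x)⁻¹ * (g * y) = x⁻¹ * y := by group
  rw [e]

theorem gpx_comm (Q : Geo Γ) (x y z : Γ) : Q.gp x y z = Q.gp y x z := by
  unfold Geo.gp
  rw [gpx_d_comm Q x y]; ring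

theorem gpx_nonneg (Q : Geo Γ) (x y z : Γ) : 0 ≤ Q.gp x y z := by
  unfold Geo.gp
  have h := gpx_d_tri Q x z y
  rw [gpx_d_comm Q x z] at h
  linarith

theorem gpx_le_left (Q : Geo Γ) (x y z : Γ) : Q.gp x y z ≤ Q.d z x := by
  unfold Geo.gp
  have h := gpx_d_tri Q z x y
  linarith

theorem gpx_le_right (Q : Geo Γ) (x y z : Γ) : Q.gp x y z ≤ Q.d z y := by
  rw [gpx_comm]; exact gpx_le_left Q y x z

/-- four points in the form of Gromov products -/
theorem gpx_four (Q : Geo Γ) (x y z p : Γ) :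
    min (Q.gp x z p) (Q.gp z y p) - Q.C / 2 ≤ Q.gp x y p := by
  have h : Q.d x y + Q.d p z ≤ max (Q.d x p + Q.d y z) (Q.d x z + Q.d p y) + Q.C :=
    Q.four x p y z
  unfold Geo.gp
  rw [gpx_d_comm Q x p, gpx_d_comm Q y z] at h
  rcases le_total (Q.d p x + Q.d z y) (Q.d x z + Q.d p y) with h1 | h1
  · rw [max_eq_right h1] at h
    refine (sub_le_sub_right (min_le_left _ _) _).trans ?_
    linarith
  · rw [max_eq_left h1] at h
    refine (sub_le_sub_right (min_le_right _ _) _).trans ?_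
    linarith

/-- the Gromov product is Lipschitz -/
theorem gpx_lip (Q : Geo Γ) (u p x z : Γ) : Q.gp p x z ≤ Q.gp u x z + Q.d p u := by
  unfold Geo.gp
  have h1 := gpx_d_tri Q z u p
  have h2 := gpx_d_tri Q u p x
  rw [gpx_d_comm Q u p] at h1 h2
  linarith

end Pool.Agent.Helper12.GM
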